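import Pool.Agent.H27.Zak

namespace Pool.Agent.Results.MP_bef260_an.NonFrame
open Real Finset MeasureTheory Filter Topology Polynomial Pool.Agent.H27.Zak
open scoped ENNReal NNReal ComplexConjugate

/-- The `n`-th Hermite function. -/
noncomputable def herm (n : ℕ) (t : ℝ) : ℝ :=
  (-1) ^ n * (2 ^ (1 / 4 : ℝ) / √(n.factorial * (2 * π) ^ n * 2 ^ n)) * exp (π * t ^ 2) *
    iteratedDeriv n (fun s => exp (-2 * π * s ^ 2)) t

/-- The time-frequency shift `π(x, ω) g = M_ω T_x g`. -/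
noncomputable def tfShift (z : ℝ × ℝ) (g : ℝ → ℂ) (t : ℝ) : ℂ :=
  Complex.exp (2 * π * Complex.I * z.2 * t) * g (t - z.1)

/-- The sum over `γ ∈ Γ` of `|⟨f, π(γ) g⟩|²`. -/
noncomputable def frameSum (g : ℝ → ℂ) (Γ : Set (ℝ × ℝ)) (f : ℝ → ℂ) : ℝ≥0∞ :=
  ∑' γ : Γ, ‖∫ t, f t * conj (tfShift γ g t)‖ₑ ^ 2

/-- The Gabor system `G(g, Γ)` is a frame for `L²(ℝ)`. -/
def IsFrame (g : ℝ → ℂ) (Γ : Set (ℝ × ℝ)) : Prop :=
  ∃ A B : ℝ≥0, 0 < A ∧ A ≤ B ∧ ∀ f : ℝ → ℂ, MemLp f 2 →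
    A * ∫⁻ t, ‖f t‖ₑ ^ 2 ≤ frameSum g Γ f ∧ frameSum g Γ f ≤ B * ∫⁻ t, ‖f t‖ₑ ^ 2

/-- The lattice `aℤ × a⁻¹ℤ`, of covolume `1`. -/
def lat (a : ℝ) : Set (ℝ × ℝ) := {w | ∃ j l : ℤ, w = (j * a, l / a)}

/-- The periodic configuration: the union of the cosets `z + lat a`, `z ∈ S`. -/
def conf (a : ℝ) (S : Finset (ℝ × ℝ)) : Set (ℝ × ℝ) := {γ | ∃ z ∈ S, γ - z ∈ lat a}

noncomputable def ph (n : ℕ) : ℝ → ℝ := iteratedDeriv n fun s => exp (-2 * π * s ^ 2)

lemma der (Q : ℝ[X]) (t : ℝ) : HasDerivAt (fun s => Q.eval s * exp (-2 * π * s ^ 2))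
    ((derivative Q - C (4 * π) * X * Q).eval t * exp (-2 * π * t ^ 2)) t := by
  refine ((Q.hasDerivAt t).mul ((hasDerivAt_pow 2 t).const_mul (-2 * π)).exp).congr_deriv ?_
  simp; ring

lemma poly (n : ℕ) : ∃ Q : ℝ[X], ph n = fun t => Q.eval t * exp (-2 * π * t ^ 2) := by
  induction n with
  | zero => exact ⟨1, by simp [ph]⟩
  | succ n ih =>
    obtain ⟨Q, h⟩ := ih
    exact ⟨_, by rw [ph, iteratedDeriv_succ, ← ph, h]; exact funext fun t => (der Q t).deriv⟩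

lemma dph (n : ℕ) (t : ℝ) : HasDerivAt (ph n) (ph (n + 1) t) t := by
  obtain ⟨Q, h⟩ := poly n
  rw [ph, ph, iteratedDeriv_succ, ← ph, h]
  exact (der Q t).differentiableAt.hasDerivAt

lemma dec (P : ℝ[X]) (c : ℝ) (hc : 1 ≤ c) :
    ∃ K, ∀ t, |P.eval t * exp (-c * t ^ 2)| ≤ K * exp (-|t|) := by
  refine ⟨(∑ i ∈ range (P.natDegree + 1), |P.coeff i| * i.factorial) * exp 1, fun t => ?_⟩
  rw [eval_eq_sum_range, sum_mul, sum_mul, sum_mul]
  refine (abs_sum_le_sum_abs _ _).trans (sum_le_sum fun i _ => ?_)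
  have a := pow_div_factorial_le_exp _ (abs_nonneg t) i
  rw [div_le_iff₀' (by positivity)] at a
  rw [abs_mul, abs_mul, abs_pow, abs_exp, mul_assoc, mul_assoc, mul_assoc]
  refine mul_le_mul_of_nonneg_left ((mul_le_mul_of_nonneg_right a (exp_pos _).le).trans ?_)
    (abs_nonneg _)
  rw [mul_assoc, ← exp_add, ← exp_add]
  exact mul_le_mul_of_nonneg_left (exp_le_exp.2 (by
    nlinarith [sq_abs t, sq_nonneg (|t| - 1), sq_nonneg t])) (by positivity)

lemma lim (n : ℕ) : Tendsto (ph n) atBot (𝓝 0) ∧ Tendsto (ph n) atTop (𝓝 0) := by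
  obtain ⟨Q, h⟩ := poly n
  obtain ⟨K, hK⟩ := dec Q (2 * π) (by linarith [pi_gt_three])
  have : ∀ l : Filter ℝ, Tendsto abs l atTop → Tendsto (ph n) l (𝓝 0) := fun l hl =>
    squeeze_zero_norm (fun t => by simpa [h] using hK t)
      (by simpa using (tendsto_exp_neg_atTop_nhds_zero.comp hl).const_mul K)
  exact ⟨this _ tendsto_abs_atBot_atTop, this _ tendsto_abs_atTop_atTop⟩

lemma alt (n : ℕ) : ∃ t : ℕ → ℝ, (∀ i < n, t i < t (i + 1)) ∧ ∀ i ≤ n, 0 < (-1) ^ i * ph n (t i) := by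
  induction n with
  | zero => exact ⟨fun _ => 0, by simp, by simp [ph]⟩
  | succ n ih =>
    obtain ⟨t, h1, h2⟩ := ih
    have m : ∀ (p q e : ℝ), p < q → e * ph n p < e * ph n q →
        ∃ r, p < r ∧ r < q ∧ 0 < e * ph (n + 1) r := fun p q e h k => by
      obtain ⟨r, ⟨a, b⟩, c⟩ := exists_hasDerivAt_eq_slope (ph n) _ h
        (fun x _ => (dph n x).continuousAt.continuousWithinAt) fun x _ => dph n x
      refine ⟨r, a, b, ?_⟩
      rw [c, ← mul_div_assoc]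
      exact div_pos (by linarith) (by linarith)
    have : ∀ i, ∃ r, i ≤ n + 1 → (i ≤ n → r < t i) ∧ (∀ j, i = j + 1 → t j < r) ∧
        0 < (-1) ^ i * ph (n + 1) r := fun i => by
      rcases i with _ | i
      · obtain ⟨u, a, b⟩ := (((lim n).1.eventually_lt_const (show 0 < ph n (t 0) by
          simpa using h2 0 n.zero_le)).and (eventually_lt_atBot (t 0))).exists
        obtain ⟨r, -, d, e⟩ := m u (t 0) 1 b (by simpa using a)
        exact ⟨r, fun _ => ⟨fun _ => d, by simp, by simpa using e⟩⟩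
      rcases lt_trichotomy i n with h | rfl | h
      · obtain ⟨r, c, d, e⟩ := m _ _ ((-1) ^ (i + 1)) (h1 i h) (by
          have := h2 i h.le
          have := h2 (i + 1) h
          rw [pow_succ] at *; linarith)
        exact ⟨r, fun _ => ⟨fun _ => d, fun j hj => by cases hj; exact c, e⟩⟩
      · obtain ⟨u, a, b⟩ := ((((lim i).2.const_mul ((-1) ^ i)).eventually_lt_const
          (by simpa using h2 i le_rfl)).and (eventually_gt_atTop (t i))).exists
        obtain ⟨r, c, -, e⟩ := m _ u ((-1) ^ (i + 1)) b (by rw [pow_succ]; linarith)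
        exact ⟨r, fun _ => ⟨by omega, fun j hj => by cases hj; exact c, e⟩⟩
      · exact ⟨0, by omega⟩
    choose r hr using this
    exact ⟨r, fun i hi => ((hr i hi.le).1 (by omega)).trans ((hr (i + 1) hi).2.1 i rfl),
      fun i hi => (hr i hi).2.2⟩

lemma sep (a : ℝ) (ha : 0 < a) (S : Finset (ℝ × ℝ))
    (h : ∀ z ∈ S, -(a / 4) < z.1 ∧ z.1 ≤ a / 2 ∧ (z.2 = 0 ∨ z.2 = 1 / (2 * a))) :
    (∀ z ∈ S, ∀ w ∈ S, z - w ∈ lat a → z = w) ∧
      ∃ δ > 0, ∀ γ ∈ conf a S, ∀ γ' ∈ conf a S, γ ≠ γ' → δ ≤ dist γ γ' := by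
  have k : ∀ z ∈ S, ∀ w ∈ S, ∀ j l : ℤ, (j ≠ 0 → a / 4 ≤ |z.1 - w.1 + j * a|) ∧
      (z.2 - w.2 + l / a ≠ 0 → 1 / (2 * a) ≤ |z.2 - w.2 + l / a|) ∧
      (z.2 - w.2 + l / a = 0 → z.2 = w.2) := fun z hz w hw j l => by
    obtain ⟨a1, a2, a3⟩ := h z hz
    obtain ⟨b1, b2, b3⟩ := h w hw
    have q : ∀ m : ℤ, (m : ℝ) / (2 * a) ≠ 0 → 1 / (2 * a) ≤ |(m : ℝ) / (2 * a)| := fun m hm => by
      rw [abs_div, abs_of_pos (by positivity : 0 < 2 * a)]
      gcongr
      exact_mod_cast Int.one_le_abs (by rintro rfl; simp at hm)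
    have q2 : ∀ m : ℤ, (m : ℝ) / (2 * a) = 0 → m = 0 := fun m hm => by simpa [ha.ne'] using hm
    refine ⟨fun hj => ?_, ?_⟩
    · rcases lt_or_gt_of_ne hj with hj | hj
      · have : (j : ℝ) ≤ -1 := by exact_mod_cast (by omega)
        exact le_abs.2 (Or.inr (by nlinarith))
      · have : (1 : ℝ) ≤ j := by exact_mod_cast (by omega)
        exact le_abs.2 (Or.inl (by nlinarith))
    have e : ∀ m : ℤ, z.2 - w.2 = m / (2 * a) → z.2 - w.2 + l / a = (m + 2 * l : ℤ) / (2 * a) :=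
      fun m hm => by rw [hm]; push_cast; field_simp
    rcases a3 with a3 | a3 <;> rcases b3 with b3 | b3
    · rw [e 0 (by simp [a3, b3])]; exact ⟨q _, fun _ => a3.trans b3.symm⟩
    · rw [e (-1) (by simp [a3, b3, neg_div])]; exact ⟨q _, fun h => by have := q2 _ h; omega⟩
    · rw [e 1 (by simp [a3, b3])]; exact ⟨q _, fun h => by have := q2 _ h; omega⟩
    · rw [e 0 (by simp [a3, b3])]; exact ⟨q _, fun _ => a3.trans b3.symm⟩
  refine ⟨fun z hz w hw ⟨j, l, e⟩ => ?_, ?_⟩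
  · obtain ⟨c, -, d⟩ := k z hz w hw (-j) (-l)
    have e1 : z.1 - w.1 = j * a := congrArg Prod.fst e
    have e2 : z.2 - w.2 = l / a := congrArg Prod.snd e
    by_cases hj : j = 0
    · exact Prod.ext (by simpa [hj, sub_eq_zero] using e1) (d (by simp [e2, neg_div]))
    · have := c (by simpa using hj)
      simp [e1] at this; linarith
  have : ∀ᶠ δ in 𝓝[>] (0 : ℝ), ∀ z ∈ S, ∀ w ∈ S, z.1 ≠ w.1 → δ ≤ |z.1 - w.1| := by
    simp only [eventually_all_finset]
    intro z _ w _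
    by_cases e : z.1 = w.1
    · simp [e]
    · filter_upwards [Ioc_mem_nhdsGT (abs_pos.2 (sub_ne_zero.2 e))] with δ hδ _ using hδ.2
  obtain ⟨δ, ⟨d1, d2⟩, d3⟩ := ((show ∀ᶠ δ in 𝓝[>] (0 : ℝ), _ from Ioc_mem_nhdsGT
    (show 0 < min (a / 4) (1 / (2 * a)) by positivity)).and this).exists
  refine ⟨δ, d1, fun γ ⟨z, hz, j, l, e⟩ γ' ⟨w, hw, j', l', e'⟩ hn => ?_⟩
  obtain ⟨c1, c2, -⟩ := k z hz w hw (j - j') (l - l')
  rw [sub_eq_iff_eq_add] at e e'
  have e1 : γ.1 - γ'.1 = z.1 - w.1 + (j - j' : ℤ) * a := by rw [e, e']; simp; ring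
  have e2 : γ.2 - γ'.2 = z.2 - w.2 + (l - l' : ℤ) / a := by rw [e, e']; simp; ring
  rw [← e1] at c1
  rw [← e2] at c2
  rw [Prod.dist_eq, Real.dist_eq, Real.dist_eq, le_max_iff]
  rw [le_min_iff] at d2
  by_cases h2 : γ.2 - γ'.2 = 0
  · left
    by_cases hj : j - j' = 0
    · rw [hj, Int.cast_zero, zero_mul, add_zero] at e1
      rw [e1]
      exact d3 z hz w hw fun h => hn (Prod.ext (by linarith) (by linarith))
    · exact d2.1.trans (c1 hj)
  · exact Or.inr (d2.2.trans (c2 h2))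

lemma nf (g : ℝ → ℝ) (hg : Continuous g) (K : ℝ) (hK : ∀ t, |g t| ≤ K * exp (-|t|)) (a : ℝ)
    (ha : 1 < a) (S : Finset (ℝ × ℝ)) (h : ∀ z ∈ S, ∃ s : ℤ, z.2 = s / (2 * a) ∧ Z g a s (-z.1) = 0) :
    ¬IsFrame (fun t => g t) (conf a S) := by
  rintro ⟨A, B, A0, -, hf⟩
  choose! s h1 h2 using h
  have p : (0 : ℝ) < A / (S.card + 1) := by positivity
  obtain ⟨ε, e1, e0⟩ := (((eventually_all_finset S).2 fun z hz =>
    one g hg K hK a ha (s z) z.1 (h2 z hz) _ p).and self_mem_nhdsWithin).exists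
  obtain ⟨N, e2, N0⟩ := (((eventually_all_finset S).2 e1).and (eventually_gt_atTop 0)).exists
  let F : S × ℤ × ℤ → conf a S := fun q => ⟨q.1 + (q.2.1 * a, q.2.2 / a), q.1, q.1.2, q.2.1, q.2.2,
    by simp⟩
  have sj : Function.Surjective F := fun ⟨γ, z, hz, j, l, e⟩ =>
    ⟨(⟨z, hz⟩, j, l), Subtype.ext (by simp [F, ← e])⟩
  have b := (mul_le_mul_right (tfl a ε N) A).trans ((hf _ (tf2 a ε N)).1.trans
    (ENNReal.tsum_le_tsum_comp_of_surjective sj _))
  rw [ENNReal.tsum_prod', tsum_fintype] at b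
  replace b := b.trans (sum_le_card_nsmul _ _ _ fun z _ => (le_of_eq (by
    rw [ENNReal.tsum_prod']; simp [F, tfShift, h1 z z.2])).trans (e2 z z.2))
  rw [nsmul_eq_mul, ← mul_assoc (card _ : ℝ≥0∞), ENNReal.mul_le_mul_iff_left (by simpa [N0.ne'] using e0)
    (by finiteness), ← ENNReal.ofReal_natCast, ← ENNReal.ofReal_mul (by positivity),
    ← ENNReal.ofReal_coe_nnreal, ENNReal.ofReal_le_ofReal_iff (by positivity), card_univ,
    Fintype.card_coe, ← mul_div_assoc, le_div_iff₀ (by positivity)] at b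
  have : (0 : ℝ) < A := A0
  linarith

theorem result (n : ℕ) : ∃ (a : ℝ) (S : Finset (ℝ × ℝ)), 0 < a ∧ S.card = 2 * n + 1 ∧
    (∀ z ∈ S, ∀ w ∈ S, z - w ∈ lat a → z = w) ∧
    (∃ δ > 0, ∀ γ ∈ conf a S, ∀ γ' ∈ conf a S, γ ≠ γ' → δ ≤ dist γ γ') ∧
    ¬IsFrame (fun t => herm n t) (conf a S) := by
  obtain ⟨Q, hQ⟩ := poly n
  obtain ⟨t, t1, t2⟩ := alt n
  set c := (-1) ^ n * (2 ^ (1 / 4 : ℝ) / √(n.factorial * (2 * π) ^ n * 2 ^ n)) with hc
  have c0 : 0 < (-1) ^ n * c := by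
    rw [hc, ← mul_assoc, ← mul_pow, neg_mul_neg, one_mul, one_pow]; positivity
  have e : herm n = fun t => (C c * Q).eval t * exp (-π * t ^ 2) := funext fun t => by
    rw [herm, ← ph, hQ, ← hc, eval_mul, eval_C, mul_mul_mul_comm, ← exp_add]; congr 2; ring
  obtain ⟨K, hK⟩ := dec (C c * Q) π (by linarith [pi_gt_three])
  replace hK : ∀ t, |herm n t| ≤ K * exp (-|t|) := by rw [e]; exact hK
  have hg : Continuous (herm n) := by rw [e]; fun_prop
  have K0 : 0 ≤ K := nonneg_of_mul_nonneg_left ((abs_nonneg _).trans (hK 0)) (exp_pos _)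
  have lm : ∀ (s : ℤ) (y : ℝ), Tendsto (fun a => Z (herm n) a s y) atTop (𝓝 (herm n y)) :=
    fun s y => by
    have := tendsto_tsum_of_dominated_convergence (𝓕 := atTop) (f := fun (a : ℝ) (k : ℤ) =>
      (-1 : ℝ) ^ (s * k) * herm n (y + k * a)) (g := fun k => if k = 0 then herm n y else 0)
      (sume' (K * exp |y|) (by positivity)) (fun k => ?_) ((eventually_ge_atTop 1).mono
        fun a ha k => bd _ K hK a _ ha s k y le_rfl)
    · simpa [Z] using this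
    by_cases hk : k = 0
    · simp [hk]
    refine (if_neg hk).symm ▸ squeeze_zero_norm (fun a => ?_) (by
      simpa using (tendsto_exp_neg_atTop_nhds_zero.comp (tendsto_atTop_add_const_right _ (-|y|)
        (tendsto_abs_atTop_atTop))).const_mul K)
    rw [Real.norm_eq_abs, abs_mul, abs_neg_one_zpow, one_mul]
    refine (hK _).trans (mul_le_mul_of_nonneg_left (exp_le_exp.2 ?_) K0)
    have a1 := abs_sub (y + k * a) y
    have a2 : (1 : ℝ) ≤ |(k : ℝ)| := by exact_mod_cast Int.one_le_abs hk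
    rw [add_sub_cancel_left, abs_mul] at a1
    nlinarith [abs_nonneg a]
  have ev : ∀ᶠ a in atTop, ∀ i ∈ range (n + 1), ∀ s ∈ ({0, 1} : Finset ℤ), 4 * |t i| < a ∧
      0 < (-1) ^ n * (-1) ^ i * Z (herm n) a s (t i) := by
    simp only [eventually_all_finset]
    refine fun i hi s _ => (eventually_gt_atTop _).and
      (((lm s _).const_mul _).eventually_const_lt ?_)
    have := mul_pos (mul_pos c0 (exp_pos (π * t i ^ 2))) (t2 i (by simpa [Nat.lt_succ_iff] using hi))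
    rw [herm, ← ph, ← hc]; linarith
  obtain ⟨a, ha, a1⟩ := (ev.and (eventually_gt_atTop 1)).exists
  have iv : ∀ (i : Fin n) (s : Fin 2), ∃ y, t i < y ∧ y < t (i + 1) ∧ Z (herm n) a (s : ℕ) y = 0 :=
    fun i s => by
    have m : ((s : ℕ) : ℤ) ∈ ({0, 1} : Finset ℤ) := by fin_cases s <;> simp
    have p := (ha i (by simp) _ m).2
    have q := (ha (i + 1) (by simp) _ m).2
    obtain ⟨y, hy, h0⟩ := intermediate_value_Ioo' (t1 i i.2).le (((Zc _ hg K hK a a1.le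
      (s : ℕ)).const_mul ((-1) ^ n * (-1) ^ (i : ℕ))).continuousOn) (show 0 ∈ Set.Ioo _ _ from
        ⟨by rw [pow_succ] at q; linarith, p⟩)
    exact ⟨y, hy.1, hy.2, by simpa using h0⟩
  choose y y1 y2 y3 using iv
  have mo : ∀ i j, i ≤ j → j ≤ n → t i ≤ t j := fun i j h => by
    induction h with
    | refl => exact fun _ => le_rfl
    | step _ ih => exact fun h => (ih (by omega)).trans (t1 _ h).le
  have a0 : 0 < a := by linarith
  have yb : ∀ i s, |y i s| < a / 4 := fun i s => by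
    have p := (ha i (by simp) 0 (by simp)).1
    have q := (ha (i + 1) (by simp) 0 (by simp)).1
    exact abs_lt.2 ⟨by linarith [y1 i s, neg_abs_le (t i)], by linarith [y2 i s, le_abs_self (t (i + 1))]⟩
  let P : Fin n × Fin 2 → ℝ × ℝ := fun q => (-y q.1 q.2, (q.2 : ℕ) / (2 * a))
  have Pi : Function.Injective P := fun ⟨i, s⟩ ⟨j, r⟩ h => by
    simp only [P, Prod.mk.injEq, neg_inj, div_left_inj' (by positivity : 2 * a ≠ 0), Nat.cast_inj,
      Fin.val_inj] at h ⊢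
    obtain ⟨h, rfl⟩ := h
    refine ⟨le_antisymm ?_ ?_, rfl⟩ <;> by_contra! h'
    · linarith [y1 i s, y2 j s, mo (j + 1) i h' i.2.le]
    · linarith [y1 j s, y2 i s, mo (i + 1) j h' j.2.le]
  let s0 : ℤ := if Even n then 1 else 0
  have hS := sep a a0 (insert (a / 2, s0 / (2 * a)) (univ.image P)) (by
    simp only [mem_insert, mem_image, mem_univ, true_and]
    rintro z (rfl | ⟨⟨i, s⟩, rfl⟩)
    · refine ⟨by simp; linarith, le_rfl, ?_⟩
      simp only [s0]; split_ifs <;> simp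
    · have := abs_lt.1 (yb i s)
      refine ⟨by simp [P]; linarith, by simp [P]; linarith, ?_⟩
      fin_cases s <;> simp [P])
  refine ⟨a, _, a0, ?_, hS.1, hS.2, nf _ hg K hK a a1 _ ?_⟩
  · rw [card_insert_of_notMem, card_image_of_injective _ Pi]
    · simp [mul_comm]
    simp only [mem_image, mem_univ, true_and, P, Prod.mk.injEq]
    rintro ⟨⟨i, s⟩, h, -⟩
    linarith [abs_lt.1 (yb i s)]
  simp only [mem_insert, mem_image, mem_univ, true_and]
  rintro z (rfl | ⟨⟨i, s⟩, rfl⟩)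
  · refine ⟨s0, rfl, ?_⟩
    have par : ∀ x, herm n (-x) = (-1) ^ n * herm n x := fun x => by
      have := iteratedDeriv_comp_neg n (fun s => exp (-2 * π * s ^ 2)) (-x)
      simp only [even_two, Even.neg_pow, neg_neg, smul_eq_mul] at this
      rw [herm, herm, this]; ring_nf
    have := (Equiv.subLeft (1 : ℤ)).tsum_eq fun k : ℤ =>
      (-1 : ℝ) ^ (s0 * k) * herm n (-(a / 2) + k * a)
    have b : ∀ k : ℤ, (-1 : ℝ) ^ (s0 * (1 - k)) * herm n (-(a / 2) + (1 - k : ℤ) * a) =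
        -((-1 : ℝ) ^ (s0 * k) * herm n (-(a / 2) + k * a)) := fun k => by
      rw [show -(a / 2) + (1 - k : ℤ) * a = -(-(a / 2) + k * a) by push_cast; ring, par]
      rcases n.even_or_odd with h | h
      · rcases k.even_or_odd with h' | h'
        · simp [s0, h, h'.neg_one_zpow, (odd_one.sub_even h').neg_one_zpow]
        · simp [s0, h, h'.neg_one_zpow, (odd_one.sub_odd h').neg_one_zpow]
      · simp [s0, Nat.not_even_iff_odd.2 h, h.neg_one_pow]
    simp only [Equiv.subLeft_apply, b, tsum_neg] at this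
    unfold Z
    linarith
  · exact ⟨(s : ℕ), by simp [P], by simpa [P] using y3 i s⟩

end Pool.Agent.Results.MP_bef260_an.NonFrame
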